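import Pool.Agent.H101R3.FullExc

/-!
The Bateman-Horn asymptotic formula for one polynomial holds for almost all integer polynomials of
degree at most `d` and height at most `H`, simultaneously for all `K` with
`H^ε ≤ K ≤ H / (log H)^B`.
-/

set_option autoImplicit false

namespace Pool.Agent.Results.MP_51e72e_nt.FullHeightBox

open Finset Polynomial Filter

/-- the integer polynomial `c 0 + c 1 X + ... + c d X^d` -/
noncomputable def poly (d : ℕ) (c : Fin (d + 1) → ℤ) : ℤ[X] := ∑ i, C (c i) * X ^ (i : ℕ)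

/-- the coefficient vectors `c` with `|c i| ≤ H` for all `i`: all polynomials of degree at most `d`
and height at most `H` -/
noncomputable def box (d H : ℕ) : Finset (Fin (d + 1) → ℤ) :=
  Fintype.piFinset fun _ => Icc (-(H : ℤ)) H

/-- `ω_f(p)`: the number of residue classes modulo `p` in which `f` vanishes modulo `p` -/
noncomputable def omega (f : ℤ[X]) (p : ℕ) : ℕ :=
  ((range p).filter (fun k : ℕ => (p : ℤ) ∣ f.eval (k : ℤ))).card

/-- the Euler product `∏_{p ≤ z} (1 - ω_f(p) / p) / (1 - 1 / p)` -/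
noncomputable def eulerProd (z : ℕ) (f : ℤ[X]) : ℝ :=
  ∏ p ∈ (Icc 1 z).filter Nat.Prime, (1 - (omega f p : ℝ) / p) / (1 - 1 / (p : ℝ))

/-- the number of `n`, `1 ≤ n ≤ K`, with `|f(n)|` prime -/
noncomputable def absPrimeCount (f : ℤ[X]) (K : ℕ) : ℝ :=
  (((Icc 1 K).filter (fun n : ℕ => (f.eval (n : ℤ)).natAbs.Prime)).card : ℝ)

/-- `∑ 1 / log |f(n)|` over `1 ≤ n ≤ K` with `|f(n)| ≥ 2` -/
noncomputable def absLogSum (f : ℤ[X]) (K : ℕ) : ℝ :=
  ∑ n ∈ (Icc 1 K).filter (fun n : ℕ => 2 ≤ |f.eval (n : ℤ)|),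
    1 / Real.log |((f.eval (n : ℤ) : ℤ) : ℝ)|

open Classical in
/-- **Bateman-Horn for almost all polynomials of bounded height.** Let `d ≥ 1`, `ε > 0` and `U` be
given, let `E` be large in terms of these, and let `B` and `H` be large in terms of these and `E`.
Put `z = ⌊(log H)^E⌋`. Among the `(2H+1)^(d+1)` integer polynomials `f` of degree at most `d` with
all coefficients of absolute value at most `H`, all those without a fixed prime divisor `p ≤ z`,
with at most `(2H+1)^(d+1) / (log H)^U` exceptions, satisfy simultaneously for **all** `K` with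
`H^ε ≤ K ≤ H / (log H)^B` the Bateman-Horn asymptotic formula
`#{n ≤ K : |f(n)| prime} = (1 + θ (log H)^(-U)) eulerProd z f ∑ 1 / log |f(n)|`, `|θ| ≤ 1`. -/
theorem result (d : ℕ) (hd : 1 ≤ d) (ε : ℝ) (hε : 0 < ε) (U : ℕ) : ∃ E' : ℕ, ∀ E : ℕ, E' ≤ E →
    ∃ B H0 : ℕ, ∀ H : ℕ, H0 ≤ H →
    (((box d H).filter (fun c =>
      (∀ p : ℕ, p.Prime → p ≤ ⌊Real.log H ^ E⌋₊ → ∃ n : ℤ, ¬ (p : ℤ) ∣ (poly d c).eval n) ∧
      ∃ K : ℕ, (H : ℝ) ^ ε ≤ K ∧ (K : ℝ) * Real.log H ^ B ≤ H ∧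
        eulerProd ⌊Real.log H ^ E⌋₊ (poly d c) * absLogSum (poly d c) K / Real.log H ^ U <
        |absPrimeCount (poly d c) K -
          eulerProd ⌊Real.log H ^ E⌋₊ (poly d c) * absLogSum (poly d c) K|)).card : ℝ) ≤
      (2 * H + 1) ^ (d + 1) / Real.log H ^ U := by
  obtain ⟨E', h⟩ := Pool.Agent.H101R3.FullAbs.exc_box d hd ε hε U
  refine ⟨E', fun E hE => ?_⟩
  obtain ⟨B, H0, hb⟩ := h E hE
  refine ⟨B, H0, fun H hH => ?_⟩
  have h1 := hb H hH
  rw [Pool.Agent.H101R3.FullAbs.bo_card] at h1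
  push_cast at h1
  refine le_trans (le_of_eq ?_) h1
  congr 2
  apply filter_congr
  intro c _
  apply and_congr _ Iff.rfl
  constructor
  · intro h p hp hpz
    exact (Pool.Agent.H300R2.BH.rho_ne_iff _ p hp).mpr (h p hp hpz)
  · intro h p hp hpz
    exact (Pool.Agent.H300R2.BH.rho_ne_iff _ p hp).mp (h p hp hpz)

end Pool.Agent.Results.MP_51e72e_nt.FullHeightBox
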